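import Pool.Agent.Helper31.BC.Stmts

set_option autoImplicit false

/-! Module EVC : a cut. -/

namespace Pool.Agent.Helper31.BC

open Pool.Agent.Helper38.MR (Edge Graph clq mpt Gate Simple out trv)

theorem evc_val_add {n : ℕ} (l : Ineq n) (x y : Pair n → ℤ) :
    val l (fun e => x e + y e) = val l x + val l y := by
  unfold val
  rw [← Finset.sum_add_distrib]
  refine Finset.sum_congr rfl fun e _ => ?_
  push_cast
  ring

theorem evc_holds {n : ℕ} (l : Ineq n) (x y : Pair n → ℤ) :
    l.Holds (fun e => x e + y e) ↔ l.b ≤ val l x + val l y := by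
  rw [← evc_val_add]
  rfl

/-- the new bound -/
theorem evc_phi {A : Type} [Finite A] (T : ℝ) (vu vw vl : A → ℝ) :
    ∃ φ : ℝ → ℝ → ℝ, (∀ a c, φ a c ≤ T) ∧
      (∀ a c α, a ≤ vu α → c ≤ vw α → φ a c ≤ vl α) ∧
      ∀ a c y, y ≤ T → (∀ α, a ≤ vu α → c ≤ vw α → y ≤ vl α) → y ≤ φ a c := by
  classical
  haveI := Fintype.ofFinite A
  refine ⟨fun a c => (insert T ((Finset.univ.filter fun α => a ≤ vu α ∧ c ≤ vw α).image vl)).min'
    (Finset.insert_nonempty _ _), ?_, ?_, ?_⟩
  · intro a c
    exact Finset.min'_le _ _ (Finset.mem_insert_self _ _)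
  · intro a c α h1 h2
    refine Finset.min'_le _ _ (Finset.mem_insert_of_mem (Finset.mem_image.2 ⟨α, ?_, rfl⟩))
    exact Finset.mem_filter.2 ⟨Finset.mem_univ _, h1, h2⟩
  · intro a c y hy h
    refine Finset.le_min' _ _ _ fun z hz => ?_
    rcases Finset.mem_insert.1 hz with rfl | hz
    · exact hy
    · obtain ⟨α, hα, rfl⟩ := Finset.mem_image.1 hz
      obtain ⟨-, h1, h2⟩ := Finset.mem_filter.1 hα
      exact h α h1 h2

theorem evc_max {A : Type} [Finite A] (v : A → ℝ) : ∃ T : ℝ, ∀ α, v α ≤ T := by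
  obtain ⟨T, hT⟩ := (Set.finite_range v).bddAbove
  exact ⟨T, fun α => hT ⟨α, rfl⟩⟩

theorem st_EVC (hP : ST_PAIR) (hE : ST_EXTL) : ST_EVC := by
  classical
  intro n m A B _ _ _ K f g hK Γ u w l N hu hw hcut ⟨E', hE'⟩
  obtain ⟨T₁, hT₁⟩ := evc_max fun β => l.b - val l (g β)
  obtain ⟨φ, hφ0, hφ2, hφ3⟩ := evc_phi T₁ (fun α => val u (f α)) (fun α => val w (f α))
    (fun α => val l (f α))
  have hφ1 : ∀ a c a' c', a ≤ a' → c ≤ c' → φ a c ≤ φ a' c' := by
    intro a c a' c' h1 h2
    exact hφ3 a' c' _ (hφ0 a c) fun α h3 h4 => hφ2 a c α (h1.trans h3) (h2.trans h4)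
  refine ⟨fun r => E' (Function.update r l (φ (r u) (r w))), ⟨fun r => hE'.bit _, ?_, ?_, ?_, ?_⟩⟩
  · intro r r' h
    refine hE'.mono _ _ fun k hk => ?_
    by_cases hkl : k = l
    · subst hkl
      rw [Function.update_self, Function.update_self]
      exact hφ1 _ _ _ _ (h u hu) (h w hw)
    · rw [Function.update_of_ne hkl, Function.update_of_ne hkl]
      exact h k ((Set.mem_insert_iff.1 hk).resolve_left hkl)
  · intro α r h
    refine hE'.left α _ fun k hk => ?_
    by_cases hkl : k = l
    · subst hkl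
      rw [Function.update_self]
      exact hφ2 _ _ α (h u hu) (h w hw)
    · rw [Function.update_of_ne hkl]
      exact h k ((Set.mem_insert_iff.1 hk).resolve_left hkl)
  · intro β r h
    refine hE'.right β _ fun k hk => ?_
    by_cases hkl : k = l
    · subst hkl
      rw [Function.update_self]
      refine hφ3 _ _ _ (hT₁ β) fun α h1 h2 => ?_
      have h3 := h u hu
      have h4 := h w hw
      have h5 := (evc_holds k (f α) (g β)).1 (hcut _ (hK α β)
        ((evc_holds u (f α) (g β)).2 (by linarith)) ((evc_holds w (f α) (g β)).2 (by linarith)))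
      linarith
    · rw [Function.update_of_ne hkl]
      exact h k ((Set.mem_insert_iff.1 hk).resolve_left hkl)
  · intro 𝓕 H r hH h
    obtain ⟨Hu, hHu, hu2⟩ := h u hu
    obtain ⟨Hw, hHw, hw2⟩ := h w hw
    have heq : ∀ (H' : Fn m), Coarser H' H → ∀ p q, H p = H q → H' p = H' q := fun H' hc p q hpq =>
      le_antisymm (hc p q hpq.le) (hc q p hpq.ge)
    have g1 : Gen H (pair Hu fun p => r p u) (pair H fun p => r p u) := by
      intro p q h1 h2
      rw [(hP m H (fun p => r p u) p q).1]
      rcases h1.lt_or_eq with h3 | h3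
      · exact Or.inl h3
      · refine Or.inr ⟨h3, ?_⟩
        rcases ((hP m Hu (fun p => r p u) p q).1).1 h2 with h4 | h4
        · exact absurd (heq Hu hHu p q h3) h4.ne
        · exact h4.2
    have g2 : Gen (pair H fun p => r p u) (pair Hw fun p => r p w)
        (pair H fun p => φ (r p u) (r p w)) := by
      intro p q h1 h2
      rw [(hP m H (fun p => φ (r p u) (r p w)) p q).1]
      rcases ((hP m H (fun p => r p u) p q).1).1 h1 with h3 | ⟨h3, h4⟩
      · exact Or.inl h3
      · refine Or.inr ⟨h3, hφ1 _ _ _ _ h4 ?_⟩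
        rcases ((hP m Hw (fun p => r p w) p q).1).1 h2 with h5 | h5
        · exact absurd (heq Hw hHw p q h3) h5.ne
        · exact h5.2
    have e1 : Ext 𝓕 1 (insert (pair H fun p => r p u) 𝓕) := Ext.step Ext.refl hH hu2 g1
    have e2 : Ext 𝓕 2 (insert (pair H fun p => φ (r p u) (r p w))
        (insert (pair H fun p => r p u) 𝓕)) :=
      Ext.step e1 (Set.mem_insert _ _) (Set.mem_insert_of_mem _ hw2) g2
    obtain ⟨𝓖, h5, h6⟩ := hE'.prog (insert (pair H fun p => φ (r p u) (r p w))
        (insert (pair H fun p => r p u) 𝓕)) H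
      (fun p => Function.update (r p) l (φ (r p u) (r p w)))
      (Set.mem_insert_of_mem _ (Set.mem_insert_of_mem _ hH)) (by
        intro k hk
        by_cases hkl : k = l
        · subst hkl
          refine ⟨H, fun p q hpq => hpq, ?_⟩
          simp only [Function.update_self]
          exact Set.mem_insert _ _
        · obtain ⟨H', h7, h8⟩ := h k ((Set.mem_insert_iff.1 hk).resolve_left hkl)
          refine ⟨H', h7, ?_⟩
          simp only [Function.update_of_ne hkl]
          exact Set.mem_insert_of_mem _ (Set.mem_insert_of_mem _ h8))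
    refine ⟨𝓖, ?_, h6⟩
    have h9 := (hE m).2 _ _ _ _ _ e2 h5
    rwa [add_comm] at h9

end Pool.Agent.Helper31.BC
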